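import Pool.Agent.helper73.SPV.Spec

set_option autoImplicit false

/-! # Row LWA of project sp: one layer of the congruence filtration -/

namespace Pool.Agent.SPV

open Matrix Module Pool.Agent.SHL Pool.Agent.H48SL

/-- the matrix `(x - 1) / q` -/
def LWA_B (n q : ℕ) (x : SLn n) : Matrix (Fin n) (Fin n) ℤ :=
  fun a b => ((x : Matrix (Fin n) (Fin n) ℤ) - 1) a b / (q : ℤ)

lemma LWA_B_eq (n q : ℕ) (hq : 0 < q) (x : SLn n) (B : Matrix (Fin n) (Fin n) ℤ)
    (h : (x : Matrix (Fin n) (Fin n) ℤ) = 1 + (q : ℤ) • B) : LWA_B n q x = B := by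
  have hq' : (q : ℤ) ≠ 0 := by exact_mod_cast hq.ne'
  ext a b
  unfold LWA_B
  rw [h, add_sub_cancel_left, Matrix.smul_apply, smul_eq_mul, Int.mul_ediv_cancel_left _ hq']

/-- reduction of `(x - 1) / p ^ i` modulo `p` -/
def LWA_F (n p i : ℕ) (hp : 0 < p) (hi : 1 ≤ i) :
    Cong (Fin n) (p ^ i) →* Multiplicative (Matrix (Fin n) (Fin n) (ZMod p)) :=
  MonoidHom.mk' (fun x => Multiplicative.ofAdd ((LWA_B n (p ^ i) x.1).map (Int.cast : ℤ → ZMod p))) (by
    intro x y
    obtain ⟨B, hB⟩ := mem_Cong.mp x.2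
    obtain ⟨C, hC⟩ := mem_Cong.mp y.2
    have hq : 0 < p ^ i := pow_pos hp i
    have hxy : ((x * y).1 : Matrix (Fin n) (Fin n) ℤ) =
        1 + ((p ^ i : ℕ) : ℤ) • (B + C + ((p ^ i : ℕ) : ℤ) • (B * C)) := by
      rw [Subgroup.coe_mul, Matrix.SpecialLinearGroup.coe_mul, hB, hC]
      simp only [add_mul, mul_add, one_mul, mul_one, smul_mul_assoc, mul_smul_comm, smul_add]
      abel
    rw [← ofAdd_add, LWA_B_eq n _ hq x.1 B hB, LWA_B_eq n _ hq y.1 C hC, LWA_B_eq n _ hq (x * y).1 _ hxy]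
    congr 1
    ext a b
    have h0 : ((p : ZMod p)) ^ i = 0 := by
      rw [ZMod.natCast_self, zero_pow (by omega)]
    simp only [Matrix.map_apply, Matrix.add_apply, Matrix.smul_apply, smul_eq_mul]
    push_cast
    rw [h0, zero_mul, add_zero])

/-- the range as an additive subgroup -/
def LWA_R (n p i : ℕ) (hp : 0 < p) (hi : 1 ≤ i) : AddSubgroup (Matrix (Fin n) (Fin n) (ZMod p)) where
  carrier := {M | Multiplicative.ofAdd M ∈ (LWA_F n p i hp hi).range}
  add_mem' := by
    intro M M' h h'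
    show Multiplicative.ofAdd (M + M') ∈ (LWA_F n p i hp hi).range
    rw [ofAdd_add]
    exact (LWA_F n p i hp hi).range.mul_mem h h'
  zero_mem' := by
    show Multiplicative.ofAdd (0 : Matrix (Fin n) (Fin n) (ZMod p)) ∈ (LWA_F n p i hp hi).range
    rw [ofAdd_zero]
    exact (LWA_F n p i hp hi).range.one_mem
  neg_mem' := by
    intro M h
    show Multiplicative.ofAdd (-M) ∈ (LWA_F n p i hp hi).range
    rw [ofAdd_neg]
    exact (LWA_F n p i hp hi).range.inv_mem h

lemma LWA_vec (n p i : ℕ) (hp : 0 < p) (hi : 1 ≤ i) (x φ : Fin n → ℤ) (h : φ ⬝ᵥ x = 0) :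
    (vecMulVec x φ).map (Int.cast : ℤ → ZMod p) ∈ LWA_R n p i hp hi := by
  have hq : 0 < p ^ i := pow_pos hp i
  refine ⟨⟨tv x (((p ^ i : ℕ) : ℤ) • φ), tv_mem_Cong h⟩, ?_⟩
  show Multiplicative.ofAdd ((LWA_B n (p ^ i) (tv x (((p ^ i : ℕ) : ℤ) • φ))).map
    (Int.cast : ℤ → ZMod p)) = _
  rw [LWA_B_eq n _ hq _ (vecMulVec x φ)]
  rw [tv_coe (by rw [smul_dotProduct, h, smul_zero]), vecMulVec_smul]

lemma LWA_off (n p i : ℕ) (hp : 0 < p) (hi : 1 ≤ i) (a b : Fin n) (hab : a ≠ b) (c : ZMod p) :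
    Matrix.single a b c ∈ LWA_R n p i hp hi := by
  obtain ⟨k, rfl⟩ := ZMod.intCast_surjective c
  have h := LWA_vec n p i hp hi (Pi.single a k) (Pi.single b 1) (by
    rw [single_dotProduct, one_mul, Pi.single_eq_of_ne (Ne.symm hab)])
  have e : (vecMulVec (Pi.single a k) (Pi.single b 1)).map (Int.cast : ℤ → ZMod p) =
      Matrix.single a b ((k : ℤ) : ZMod p) := by
    ext r s
    rw [Matrix.map_apply, vecMulVec_apply, Matrix.single_apply]
    by_cases h1 : a = r
    · subst h1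
      by_cases h2 : b = s
      · subst h2; simp
      · simp [Pi.single_eq_of_ne (Ne.symm h2), h2]
    · simp [Pi.single_eq_of_ne (Ne.symm h1), h1]
  rwa [e] at h

lemma LWA_diag (n p i : ℕ) (hp : 0 < p) (hi : 1 ≤ i) (a b : Fin n) (c : ZMod p) :
    Matrix.single a a c - Matrix.single b b c ∈ LWA_R n p i hp hi := by
  by_cases hab : a = b
  · subst hab
    rw [sub_self]
    exact zero_mem _
  obtain ⟨k, rfl⟩ := ZMod.intCast_surjective c
  have h := LWA_vec n p i hp hi (Pi.single a k + Pi.single b k) (Pi.single a 1 - Pi.single b 1) (by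
    rw [sub_dotProduct, single_dotProduct, single_dotProduct, Pi.add_apply, Pi.add_apply]
    simp [Pi.single_eq_of_ne hab, Pi.single_eq_of_ne (Ne.symm hab)])
  have h1 := LWA_off n p i hp hi a b hab ((k : ℤ) : ZMod p)
  have h2 := LWA_off n p i hp hi b a (Ne.symm hab) ((k : ℤ) : ZMod p)
  have e : Matrix.single a a ((k : ℤ) : ZMod p) - Matrix.single b b ((k : ℤ) : ZMod p) =
      ((vecMulVec (Pi.single a k + Pi.single b k) (Pi.single a 1 - Pi.single b 1)).map
        (Int.cast : ℤ → ZMod p) + Matrix.single a b ((k : ℤ) : ZMod p)) -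
        Matrix.single b a ((k : ℤ) : ZMod p) := by
    ext r s
    simp only [Matrix.sub_apply, Matrix.add_apply, Matrix.map_apply, vecMulVec_apply,
      Matrix.single_apply, Pi.add_apply, Pi.sub_apply, Pi.single_apply]
    by_cases h3 : a = r
    · subst h3
      by_cases h4 : a = s
      · subst h4
        simp [hab, Ne.symm hab]
      · by_cases h5 : b = s
        · subst h5
          simp [hab, Ne.symm hab]
        · simp [h4, h5, Ne.symm h4, Ne.symm h5, hab, Ne.symm hab]
    · by_cases h6 : b = r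
      · subst h6
        by_cases h4 : a = s
        · subst h4
          simp [hab, Ne.symm hab]
        · by_cases h5 : b = s
          · subst h5
            simp [hab, Ne.symm hab]
          · simp [h4, h5, Ne.symm h4, Ne.symm h5, hab, Ne.symm hab]
      · simp [h3, h6, Ne.symm h3, Ne.symm h6]
  rw [e]
  exact sub_mem (add_mem h h1) h2

lemma LWA_all (n p i : ℕ) (hp : 0 < p) (hi : 1 ≤ i) (a₀ : Fin n) (M : Matrix (Fin n) (Fin n) (ZMod p)) :
    M - Matrix.single a₀ a₀ (Matrix.trace M) ∈ LWA_R n p i hp hi := by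
  have e : M - Matrix.single a₀ a₀ (Matrix.trace M) = ∑ a, ∑ b,
      (Matrix.single a b (M a b) - if a = b then Matrix.single a₀ a₀ (M a b) else 0) := by
    simp_rw [Finset.sum_sub_distrib]
    rw [← Matrix.matrix_eq_sum_single M]
    congr 1
    simp only [Finset.sum_ite_eq, Finset.mem_univ, if_true]
    rw [Matrix.trace]
    ext r s
    rw [Matrix.single_apply, Matrix.sum_apply]
    simp only [Matrix.single_apply, Matrix.diag_apply]
    split_ifs
    · rfl
    · simp
  rw [e]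
  apply sum_mem
  intro a _
  apply sum_mem
  intro b _
  by_cases hab : a = b
  · subst hab
    rw [if_pos rfl]
    exact LWA_diag n p i hp hi a a₀ _
  · rw [if_neg hab, sub_zero]
    exact LWA_off n p i hp hi a b hab _

theorem LWA : LWA_stmt := by
  intro n p hn hp i hi
  have hp0 : 0 < p := hp.pos
  have : Fact p.Prime := ⟨hp⟩
  have hfin : (Cong (Fin n) (p ^ (i + 1))).FiniteIndex := cong_finiteIndex _ (pow_pos hp0 _).ne'
  obtain ⟨F, hF⟩ : ∃ F, F = LWA_F n p i hp0 hi := ⟨_, rfl⟩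
  have hle : (Cong (Fin n) (p ^ (i + 1))).subgroupOf (Cong (Fin n) (p ^ i)) ≤ F.ker := by
    intro x hx
    rw [Subgroup.mem_subgroupOf] at hx
    obtain ⟨B, hB⟩ := mem_Cong.mp hx
    rw [MonoidHom.mem_ker, hF]
    show Multiplicative.ofAdd ((LWA_B n (p ^ i) x.1).map (Int.cast : ℤ → ZMod p)) = 1
    rw [LWA_B_eq n _ (pow_pos hp0 i) x.1 ((p : ℤ) • B) (by
      rw [hB, smul_smul]
      congr 2)]
    rw [← ofAdd_zero]
    congr 1
    ext a b
    rw [Matrix.map_apply, Matrix.smul_apply, smul_eq_mul, Int.cast_mul, Int.cast_natCast,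
      ZMod.natCast_self, zero_mul]
    rfl
  have h1 : F.ker.index ∣ ((Cong (Fin n) (p ^ (i + 1))).subgroupOf (Cong (Fin n) (p ^ i))).index :=
    Subgroup.index_dvd_of_le hle
  have h2 : ((Cong (Fin n) (p ^ (i + 1))).subgroupOf (Cong (Fin n) (p ^ i))).index ≠ 0 :=
    Subgroup.FiniteIndex.index_ne_zero
  have h3 : F.ker.index ≤ (Cong (Fin n) (p ^ (i + 1))).relIndex (Cong (Fin n) (p ^ i)) :=
    Nat.le_of_dvd (Nat.pos_of_ne_zero h2) h1
  refine le_trans ?_ h3
  rw [Subgroup.index_ker]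
  -- counting
  have a₀ : Fin n := ⟨0, by omega⟩
  have hsurj : Function.Surjective (fun q : F.range × ZMod p =>
      (Multiplicative.toAdd (q.1 : Multiplicative (Matrix (Fin n) (Fin n) (ZMod p)))) +
        Matrix.single a₀ a₀ q.2) := by
    intro M
    have h4 := LWA_all n p i hp0 hi a₀ M
    have h5 : Multiplicative.ofAdd (M - Matrix.single a₀ a₀ (Matrix.trace M)) ∈ F.range := by
      rw [hF]; exact h4
    refine ⟨(⟨_, h5⟩, Matrix.trace M), ?_⟩
    simp
  have hfinM : Finite (Matrix (Fin n) (Fin n) (ZMod p)) :=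
    inferInstanceAs (Finite (Fin n → Fin n → ZMod p))
  have hfinR : Finite (Multiplicative (Matrix (Fin n) (Fin n) (ZMod p))) := hfinM
  have h6 := Nat.card_le_card_of_surjective _ hsurj
  rw [Nat.card_prod, Nat.card_zmod] at h6
  have h7 : Nat.card (Matrix (Fin n) (Fin n) (ZMod p)) = p ^ (n * n) := by
    show Nat.card (Fin n → Fin n → ZMod p) = _
    rw [Nat.card_eq_fintype_card, Fintype.card_fun, Fintype.card_fun, ZMod.card, Fintype.card_fin,
      ← pow_mul]
  rw [h7] at h6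
  have h8 : p ^ (n * n) = p ^ (n * n - 1) * p := by
    rw [← pow_succ]
    congr 1
    have : 0 < n * n := Nat.mul_pos (by omega) (by omega)
    omega
  rw [h8] at h6
  exact Nat.le_of_mul_le_mul_right h6 hp0

end Pool.Agent.SPV
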